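import Pool.Agent.W610.HY.Stm2

/-!
# Project HY, part OUTM: outer functions for measurable data
-/

set_option autoImplicit false

namespace Pool.Agent.W318.HY.OUTM

open Pool.Agent.W610.HY
open MeasureTheory Set Metric Filter Topology

/-- the angle in `(0, 2 π]` -/
noncomputable def tt (z : ℂ) : ℝ := if 0 < z.arg then z.arg else z.arg + 2 * Real.pi

lemma tt_meas : Measurable tt := by
  unfold tt
  refine Measurable.ite ?_ Complex.measurable_arg (Complex.measurable_arg.add_const _)
  exact measurableSet_lt measurable_const Complex.measurable_arg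

lemma tt_circle (θ : ℝ) (h : θ ∈ Ioc (0:ℝ) (2 * Real.pi)) : tt (circleMap 0 1 θ) = θ := by
  have hpi := Real.pi_pos
  obtain ⟨h1, h2⟩ := h
  have hc : circleMap 0 1 θ = Complex.exp (θ * Complex.I) := by simp [circleMap]
  rw [hc]
  unfold tt
  rw [Complex.arg_exp_mul_I]
  by_cases h3 : θ ≤ Real.pi
  · have : toIocMod Real.two_pi_pos (-Real.pi) θ = θ := by
      rw [toIocMod_eq_self]
      constructor <;> linarith
    rw [this, if_pos h1]
  · push Not at h3
    have : toIocMod Real.two_pi_pos (-Real.pi) θ = θ - 2 * Real.pi := by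
      have h4 : toIocMod Real.two_pi_pos (-Real.pi) (θ - 2 * Real.pi) = θ - 2 * Real.pi := by
        rw [toIocMod_eq_self]
        constructor <;> linarith
      rw [← h4]
      rw [toIocMod_sub]
    rw [this, if_neg (by linarith)]
    ring

/-- the successive differences -/
noncomputable def ff (g : ℕ → ℂ → ℝ) : ℕ → ℂ → ℝ
  | 0 => fun z => |g 0 z|
  | (k+1) => fun z => |g (k+1) z - g k z|

lemma ff_sum (g : ℕ → ℂ → ℝ) (n : ℕ) (z : ℂ) :
    g n z ≤ ∑ k ∈ Finset.range (n+1), ff g k z := by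
  induction n with
  | zero => simpa [ff] using le_abs_self (g 0 z)
  | succ n ih =>
    rw [Finset.sum_range_succ]
    have : g (n+1) z - g n z ≤ ff g (n+1) z := by
      simpa [ff] using le_abs_self (g (n+1) z - g n z)
    linarith

lemma ff_nonneg (g : ℕ → ℂ → ℝ) (n : ℕ) (z : ℂ) : 0 ≤ ff g n z := by
  cases n <;> simp [ff]

lemma ff_cont (g : ℕ → ℂ → ℝ) (hg : ∀ n, Continuous (g n)) (n : ℕ) : Continuous (ff g n) := by
  cases n with
  | zero => exact (hg 0).abs
  | succ n => exact ((hg (n+1)).sub (hg n)).abs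

theorem main (hPOLY : POLY) (hMEAN : MEAN) (hLIM : LIM) : Pool.Agent.W610.HY.OUTM := by
  intro m hm hfin
  have hpi := Real.pi_pos
  set μ : Measure ℝ := volume.restrict (Ioc (0:ℝ) (2 * Real.pi)) with hμ
  have : IsFiniteMeasure μ := by
    rw [hμ]
    infer_instance
  have hcm : Measurable (circleMap 0 1) := (continuous_circleMap 0 1).measurable
  set ν : Measure ℂ := μ.map (circleMap 0 1) with hν
  have : IsFiniteMeasure ν := Measure.isFiniteMeasure_map _ _
  -- the data on the circle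
  set M : ℂ → ℝ := fun z => (m (tt z)).toReal with hM
  have hMm : Measurable M := (hm.comp tt_meas).ennreal_toReal
  have hMc : ∀ᵐ θ ∂μ, M (circleMap 0 1 θ) = (m θ).toReal := by
    rw [hμ, ae_restrict_iff' measurableSet_Ioc]
    refine Eventually.of_forall (fun θ hθ => ?_)
    simp only [hM]
    rw [tt_circle θ hθ]
  have hmint : Integrable (fun θ => (m θ).toReal) μ :=
    integrable_toReal_of_lintegral_ne_top hm.aemeasurable hfin
  have hMint : Integrable M ν := by
    rw [hν, integrable_map_measure hMm.aestronglyMeasurable hcm.aemeasurable]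
    exact hmint.congr (hMc.mono (fun θ h => h.symm))
  -- approximation
  have happ : ∀ n : ℕ, ∃ g : BoundedContinuousFunction ℂ ℝ,
      (∫ z, ‖M z - g z‖ ∂ν) ≤ (1/2 : ℝ) ^ n ∧ Integrable g ν := fun n =>
    hMint.exists_boundedContinuous_integral_sub_le (by positivity)
  choose g hg1 hg2 using happ
  set G : ℕ → ℂ → ℝ := fun n z => g n z with hG
  have hGc : ∀ n, Continuous (G n) := fun n => (g n).continuous
  have hGi : ∀ n, Integrable (G n) ν := fun n => hg2 n
  have hD : ∀ n, Integrable (fun z => M z - G n z) ν := fun n => hMint.sub (hGi n)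
  have hfc := ff_cont G hGc
  have hpol : ∀ k : ℕ, ∃ p : Polynomial ℂ, (p.eval 0).im = 0 ∧
      ∀ z : ℂ, ‖z‖ = 1 → ff G k z ≤ (p.eval z).re ∧ (p.eval z).re ≤ ff G k z + (1/2 : ℝ) ^ k :=
    fun k => hPOLY (ff G k) (hfc k).continuousOn _ (by positivity)
  choose p hp0 hp1 using hpol
  have hcn : ∀ θ : ℝ, ‖circleMap 0 1 θ‖ = 1 := fun θ => by simp
  -- mean value
  have hmean : ∀ k, 2 * Real.pi * ((p k).eval 0).re = ∫ θ, ((p k).eval (circleMap 0 1 θ)).re ∂μ := by
    intro k
    have h1 := (hMEAN (fun z => (p k).eval z) (p k).differentiable).1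
    rw [intervalIntegral.integral_of_le (by positivity)] at h1
    have h2 : Integrable (fun θ => (p k).eval (circleMap 0 1 θ)) μ := by
      have : Continuous (fun θ : ℝ => (p k).eval (circleMap 0 1 θ)) :=
        (p k).continuous.comp (continuous_circleMap 0 1)
      exact (this.integrableOn_Icc (a := 0) (b := 2 * Real.pi)).mono_set Ioc_subset_Icc_self
    have h3 := Complex.reCLM.integral_comp_comm h2
    simp only [Complex.reCLM_apply] at h3
    rw [h3, h1]
    have : (2 * (Real.pi : ℂ) * (p k).eval 0) = ((2 * Real.pi : ℝ) : ℂ) * (p k).eval 0 := by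
      push_cast
      ring
    rw [this, Complex.re_ofReal_mul]
  have hfi : ∀ k, Integrable (fun θ => ff G k (circleMap 0 1 θ)) μ := by
    intro k
    have : Continuous (fun θ : ℝ => ff G k (circleMap 0 1 θ)) :=
      (hfc k).comp (continuous_circleMap 0 1)
    exact (this.integrableOn_Icc (a := 0) (b := 2 * Real.pi)).mono_set Ioc_subset_Icc_self
  have hpi' : ∀ k, Integrable (fun θ => ((p k).eval (circleMap 0 1 θ)).re) μ := by
    intro k
    have : Continuous (fun θ : ℝ => ((p k).eval (circleMap 0 1 θ)).re) :=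
      Complex.continuous_re.comp ((p k).continuous.comp (continuous_circleMap 0 1))
    exact (this.integrableOn_Icc (a := 0) (b := 2 * Real.pi)).mono_set Ioc_subset_Icc_self
  have hup : ∀ k, 2 * Real.pi * ((p k).eval 0).re
      ≤ (∫ θ, ff G k (circleMap 0 1 θ) ∂μ) + 2 * Real.pi * (1/2 : ℝ) ^ k := by
    intro k
    rw [hmean k]
    have h1 : (∫ θ, ((p k).eval (circleMap 0 1 θ)).re ∂μ)
        ≤ ∫ θ, (ff G k (circleMap 0 1 θ) + (1/2 : ℝ) ^ k) ∂μ := by
      refine integral_mono (hpi' k) ((hfi k).add (integrable_const _)) (fun θ => ?_)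
      exact (hp1 k _ (hcn θ)).2
    rw [integral_add (hfi k) (integrable_const _)] at h1
    have h2 : (∫ _θ, (1/2 : ℝ) ^ k ∂μ) = 2 * Real.pi * (1/2 : ℝ) ^ k := by
      rw [integral_const]
      simp only [hμ, measureReal_restrict_apply_univ, Real.volume_real_Ioc, smul_eq_mul, sub_zero]
      rw [max_eq_left (by positivity)]
    rw [h2] at h1
    exact h1
  have hlow : ∀ k, 0 ≤ ((p k).eval 0).re := by
    intro k
    have h1 : 0 ≤ 2 * Real.pi * ((p k).eval 0).re := by
      rw [hmean k]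
      refine integral_nonneg (fun θ => ?_)
      exact (ff_nonneg G k _).trans (hp1 k _ (hcn θ)).1
    by_contra hcon
    push Not at hcon
    nlinarith [Real.pi_pos]
  have hfk : ∀ k, (∫ θ, ff G (k+1) (circleMap 0 1 θ) ∂μ) ≤ 2 * (1/2 : ℝ) ^ k := by
    intro k
    have h1 : (∫ θ, ff G (k+1) (circleMap 0 1 θ) ∂μ) = ∫ z, ff G (k+1) z ∂ν := by
      rw [hν, integral_map hcm.aemeasurable (hfc (k+1)).aestronglyMeasurable]
    rw [h1]
    have h2 : (∫ z, ff G (k+1) z ∂ν) ≤ ∫ z, (‖M z - G (k+1) z‖ + ‖M z - G k z‖) ∂ν := by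
      refine integral_mono ?_ ?_ (fun z => ?_)
      · exact ((hGi (k+1)).sub (hGi k)).abs
      · exact (hD (k+1)).norm.add (hD k).norm
      · simp only [ff, Real.norm_eq_abs]
        have : G (k+1) z - G k z = -(M z - G (k+1) z) + (M z - G k z) := by ring
        rw [this]
        refine (abs_add_le _ _).trans ?_
        rw [abs_neg]
    rw [integral_add (hD (k+1)).norm (hD k).norm] at h2
    have h3 := hg1 (k+1)
    have h4 := hg1 k
    have h5 : (1/2 : ℝ) ^ (k+1) ≤ (1/2 : ℝ) ^ k := by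
      rw [pow_succ]
      have : (0:ℝ) < (1/2 : ℝ) ^ k := by positivity
      linarith
    simp only [hG] at h2 ⊢
    linarith
  have hsum : Summable (fun k => ((p k).eval 0).re) := by
    rw [← summable_nat_add_iff 1]
    have hgeo : Summable (fun k : ℕ => 3 * (1/2 : ℝ) ^ k) :=
      (summable_geometric_of_lt_one (by norm_num) (by norm_num)).mul_left 3
    refine Summable.of_nonneg_of_le (fun k => hlow (k+1)) (fun k => ?_) hgeo
    have h1 := hup (k+1)
    have h2 := hfk k
    have h3 : (1/2 : ℝ) ^ (k+1) ≤ (1/2 : ℝ) ^ k := by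
      rw [pow_succ]
      have : (0:ℝ) < (1/2 : ℝ) ^ k := by positivity
      linarith
    have h4 : (0:ℝ) < (1/2 : ℝ) ^ k := by positivity
    have h5 : 2 * Real.pi * ((p (k+1)).eval 0).re
        ≤ 2 * (1/2 : ℝ) ^ k + 2 * Real.pi * (1/2 : ℝ) ^ k := by
      have : 2 * Real.pi * (1/2 : ℝ) ^ (k+1) ≤ 2 * Real.pi * (1/2 : ℝ) ^ k :=
        mul_le_mul_of_nonneg_left h3 (by positivity)
      linarith
    have h6 : 2 * (1/2 : ℝ) ^ k ≤ 2 * Real.pi * (2 * (1/2 : ℝ) ^ k) := by
      have := Real.pi_gt_three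
      nlinarith
    have h7 : 2 * Real.pi * ((p (k+1)).eval 0).re ≤ 2 * Real.pi * (3 * (1/2 : ℝ) ^ k) := by
      linarith
    exact le_of_mul_le_mul_left h7 (by positivity)
  obtain ⟨h, hh1, hh2, hh3, hh4⟩ := hLIM p hp0
    (fun k z hz => (ff_nonneg G k z).trans (hp1 k z hz).1) hsum
  -- almost everywhere convergence
  have hae : ∀ᵐ z ∂ν, Tendsto (fun n => G n z) atTop (𝓝 (M z)) := by
    have h1 : (∫⁻ z, ∑' n, ‖M z - G n z‖ₑ ∂ν) ≠ ⊤ := by
      rw [lintegral_tsum (fun n => (hD n).aestronglyMeasurable.enorm)]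
      have h2 : ∀ n, (∫⁻ z, ‖M z - G n z‖ₑ ∂ν) ≤ ENNReal.ofReal ((1/2 : ℝ) ^ n) := by
        intro n
        have := ofReal_integral_norm_eq_lintegral_enorm (hD n)
        rw [← this]
        exact ENNReal.ofReal_le_ofReal (hg1 n)
      have h3 : (∑' n, ENNReal.ofReal ((1/2 : ℝ) ^ n)) ≠ ⊤ := by
        rw [← ENNReal.ofReal_tsum_of_nonneg (fun n => by positivity)
          (summable_geometric_of_lt_one (by norm_num) (by norm_num))]
        exact ENNReal.ofReal_ne_top
      exact ne_top_of_le_ne_top h3 (ENNReal.tsum_le_tsum h2)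
    have h2 := ae_lt_top' (AEMeasurable.tsum
      (fun n => (hD n).aestronglyMeasurable.enorm)) h1
    refine h2.mono (fun z hz => ?_)
    have h3 := ENNReal.tendsto_atTop_zero_of_tsum_ne_top hz.ne
    rw [tendsto_iff_edist_tendsto_0]
    refine h3.congr (fun n => ?_)
    rw [edist_comm, edist_eq_enorm_sub]
  have hae' : ∀ᵐ θ ∂μ, Tendsto (fun n => G n (circleMap 0 1 θ)) atTop
      (𝓝 (M (circleMap 0 1 θ))) := by
    exact ae_of_ae_map hcm.aemeasurable hae
  have htop : ∀ᵐ θ ∂μ, m θ < ⊤ := ae_lt_top hm hfin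
  refine ⟨h, hh1, ?_, hh3, hh4⟩
  filter_upwards [hMc, hae', htop, hh2] with θ e1 e2 e3 e4
  refine ⟨e3.ne, ?_⟩
  rw [← e1]
  have hb : ∀ n, ‖h θ‖ ≤ Real.exp (-(G n (circleMap 0 1 θ))) := by
    intro n
    refine (e4 (n+1)).trans ?_
    unfold hh
    rw [Complex.norm_exp]
    refine Real.exp_le_exp.2 ?_
    simp only [Complex.neg_re, Complex.re_sum]
    refine neg_le_neg ?_
    refine (ff_sum G n _).trans (Finset.sum_le_sum (fun k _ => ?_))
    exact (hp1 k _ (hcn θ)).1
  have hlim : Tendsto (fun n => Real.exp (-(G n (circleMap 0 1 θ)))) atTop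
      (𝓝 (Real.exp (-(M (circleMap 0 1 θ))))) :=
    (Real.continuous_exp.tendsto _).comp e2.neg
  exact ge_of_tendsto' hlim hb

end Pool.Agent.W318.HY.OUTM
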